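import Pool.Agent.Work.MP_db9399_og.Interface
import Pool.Agent.Work.MP_db9399_cg_helper35.Kern

/-! # OWNG, blocks FLOW and FLW (helper68) -/

set_option autoImplicit false
set_option linter.unusedSectionVars false

namespace Pool.Agent.Work.MP_db9399_og.helper68

open Finset Classical
open Pool.Agent.Work.MP_db9399_all (nb mis)
open Pool.Agent.Work.MP_db9399_cg (cdg pk sx sp)
open Pool.Agent.Work.MP_db9399_en (HH wlk)
open Pool.Agent.Work.MP_db9399_sg
open Pool.Agent.Work.MP_db9399_ox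
open Pool.Agent.Work.MP_db9399_cg.helper35 (pk_succ pk_nonneg iter_eq row_eq)

universe u

section

variable {V : Type u} [Fintype V]

theorem last_eq (S : SimpleGraph V) (r j : ℕ) (f : V → ℝ) (v : V) :
    ∑ x, pk S r (j + 1) v x * f x = ∑ u, pk S r j v u * ((∑ w ∈ nb S u, f w) / r) := by
  have h1 : ∑ x, pk S r (j + 1) v x * f x = ((HH S r)^[j] (HH S r f)) v := by
    rw [← Function.iterate_succ_apply, iter_eq]
    exact Finset.sum_congr rfl fun x _ => mul_comm _ _
  rw [h1, iter_eq]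
  exact Finset.sum_congr rfl fun x _ => mul_comm _ _

/-- mass of a set after one more step -/
theorem step_set (S : SimpleGraph V) (r j : ℕ) (Z : Finset V) (v : V) (hr : 0 < r) :
    (∑ z ∈ Z, pk S r (j + 1) v z) * r = ∑ u, pk S r j v u * ((nb S u ∩ Z).card : ℝ) := by
  have hr' : (r : ℝ) ≠ 0 := by exact_mod_cast hr.ne'
  have h := last_eq S r j (fun w => if w ∈ Z then (1 : ℝ) else 0) v
  have e1 : ∑ x, pk S r (j + 1) v x * (if x ∈ Z then (1 : ℝ) else 0) =
      ∑ z ∈ Z, pk S r (j + 1) v z := by simp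
  have e2 : ∀ u, (∑ w ∈ nb S u, if w ∈ Z then (1 : ℝ) else 0) = ((nb S u ∩ Z).card : ℝ) := by
    intro u
    rw [Finset.sum_boole, Finset.filter_mem_eq_inter]
  rw [e1] at h
  simp only [e2] at h
  rw [h, Finset.sum_mul]
  refine Finset.sum_congr rfl fun u _ => ?_
  field_simp

theorem row_le (S : SimpleGraph V) (r : ℕ) (hr : 0 < r) (hi : ∀ v, (nb S v).card ≤ r + 2) (j : ℕ)
    (v : V) : ∑ x, pk S r j v x ≤ (1 + 2 / (r : ℝ)) ^ j := by
  have hr' : (0 : ℝ) < r := by exact_mod_cast hr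
  induction j generalizing v with
  | zero =>
    unfold pk
    simp
  | succ j ih =>
    have h1 : ∑ x, pk S r (j + 1) v x = (∑ w ∈ nb S v, ∑ x, pk S r j w x) / r := by
      rw [Finset.sum_comm, Finset.sum_div]
      exact Finset.sum_congr rfl fun x _ => pk_succ S r j v x
    rw [h1, div_le_iff₀ hr']
    refine (Finset.sum_le_sum fun w _ => ih w).trans ?_
    rw [Finset.sum_const, nsmul_eq_mul, pow_succ]
    have h2 : ((nb S v).card : ℝ) ≤ r + 2 := by exact_mod_cast hi v
    have h3 : 0 ≤ (1 + 2 / (r : ℝ)) ^ j := by positivity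
    calc ((nb S v).card : ℝ) * (1 + 2 / (r : ℝ)) ^ j ≤ (r + 2) * (1 + 2 / (r : ℝ)) ^ j :=
          mul_le_mul_of_nonneg_right h2 h3
      _ = (1 + 2 / (r : ℝ)) ^ j * (1 + 2 / (r : ℝ)) * r := by field_simp

theorem row_le3 (S : SimpleGraph V) (r L : ℕ) (hr : 0 < r) (hi : ∀ v, (nb S v).card ≤ r + 2)
    (hL : 8 * L ≤ r) (j : ℕ) (hj : j ≤ 4 * L) (v : V) : ∑ x, pk S r j v x ≤ 3 := by
  refine (row_le S r hr hi j v).trans ?_
  have hr' : (0 : ℝ) < r := by exact_mod_cast hr
  have h1 : (1 + 2 / (r : ℝ)) ^ j ≤ Real.exp (2 / (r : ℝ)) ^ j := by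
    apply pow_le_pow_left₀ (by positivity)
    have := Real.add_one_le_exp (2 / (r : ℝ))
    linarith
  refine h1.trans ?_
  rw [← Real.exp_nat_mul]
  have h2 : (j : ℝ) * (2 / r) ≤ 1 := by
    rw [mul_div_assoc', div_le_one hr']
    have : (j : ℝ) ≤ 4 * L := by exact_mod_cast hj
    have : (8 : ℝ) * L ≤ r := by exact_mod_cast hL
    linarith
  refine (Real.exp_le_exp.2 h2).trans ?_
  have := Real.exp_one_lt_d9
  linarith

theorem tele (b : ℕ → ℝ) (L : ℕ) : ∑ l ∈ Ico L (2 * L), (b l - b (l + 1)) = b L - b (2 * L) := by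
  have h := Finset.sum_Ico_eq_sub (fun l => b l - b (l + 1)) (show L ≤ 2 * L by omega)
  rw [h, Finset.sum_range_sub', Finset.sum_range_sub']
  ring

theorem k_sum (S : SimpleGraph V) (r L : ℕ) (v : V) (T : Finset V) (f : V → ℝ) :
    ∑ x ∈ T, (k0 S r L v x + k1 S r L v x) * f x =
      (∑ l ∈ Ico L (2 * L), (∑ x ∈ T, pk S r (2 * l) v x * f x +
        ∑ x ∈ T, pk S r (2 * l - 1) v x * f x)) / L := by
  unfold k0 k1
  rw [Finset.sum_add_distrib, add_div, Finset.sum_comm, Finset.sum_comm (s := Ico L (2 * L)),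
    Finset.sum_div, Finset.sum_div, ← Finset.sum_add_distrib]
  refine Finset.sum_congr rfl fun x _ => ?_
  rw [← Finset.sum_mul, ← Finset.sum_mul]
  ring

end

theorem stmt_FLOW : Stmt_FLOW.{u} := by
  intro V _ S O r L β hL hLr hβ hi hO
  have hr : 0 < r := by omega
  have hr' : (0 : ℝ) < r := by exact_mod_cast hr
  have hL' : (1 : ℝ) ≤ L := by exact_mod_cast hL
  have hL0 : (0 : ℝ) < L := by linarith
  have hLr' : (8 : ℝ) * L ≤ r := by exact_mod_cast hLr
  have h3 : ∀ j v, j ≤ 4 * L → ∑ x, pk S r j v x ≤ 3 := fun j v hj => row_le3 S r L hr hi hLr j hj v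
  have hsub : ∀ j v (Z : Finset V), j ≤ 4 * L → ∑ x ∈ Z, pk S r j v x ≤ 3 := fun j v Z hj =>
    (Finset.sum_le_sum_of_subset_of_nonneg (Finset.subset_univ Z)
      fun x _ _ => pk_nonneg S r j v x).trans (h3 j v hj)
  have hcI : ((Ico L (2 * L)).card : ℝ) = L := by
    rw [Nat.card_Ico]
    have : 2 * L - L = L := by omega
    rw [this]
  refine ⟨?_, ?_, ?_⟩
  · intro v
    have := k_sum S r L v univ (fun _ => 1)
    simp only [mul_one] at this
    rw [this, div_le_iff₀ hL0]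
    have h4 : ∀ l ∈ Ico L (2 * L), ∑ x, pk S r (2 * l) v x + ∑ x, pk S r (2 * l - 1) v x ≤ 6 := by
      intro l hl
      rw [Finset.mem_Ico] at hl
      have e1 := h3 (2 * l) v (by omega)
      have e2 := h3 (2 * l - 1) v (by omega)
      linarith
    refine (Finset.sum_le_sum h4).trans ?_
    rw [Finset.sum_const, nsmul_eq_mul, hcI]
    linarith
  · intro v
    -- one step
    have hstep : ∀ m, m ≤ 4 * L → ∑ x ∈ O, pk S r m v x * ((nb S x \ O).card : ℝ) ≤
        (∑ x ∈ O, pk S r m v x - ∑ x ∈ O, pk S r (m + 1) v x) * r + 6 + 3 * β * r := by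
      intro m hm
      have e1 := step_set S r m O v hr
      have e2 : ∑ u, pk S r m v u * ((nb S u ∩ O).card : ℝ) =
          ∑ u ∈ O, pk S r m v u * ((nb S u ∩ O).card : ℝ) +
            ∑ u ∈ univ \ O, pk S r m v u * ((nb S u ∩ O).card : ℝ) := by
        rw [add_comm]
        exact (Finset.sum_sdiff (Finset.subset_univ O)).symm
      have e3 : ∑ u ∈ univ \ O, pk S r m v u * ((nb S u ∩ O).card : ℝ) ≤ 3 * β * r := by
        have e4 : ∑ u ∈ univ \ O, pk S r m v u * ((nb S u ∩ O).card : ℝ) ≤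
            ∑ u ∈ univ \ O, pk S r m v u * (β * r) := by
          apply Finset.sum_le_sum
          intro u hu
          rw [Finset.mem_sdiff] at hu
          exact mul_le_mul_of_nonneg_left (hO u hu.2) (pk_nonneg S r m v u)
        rw [← Finset.sum_mul] at e4
        have e5 : (∑ u ∈ univ \ O, pk S r m v u) * (β * r) ≤ 3 * (β * r) :=
          mul_le_mul_of_nonneg_right (hsub m v _ hm) (by positivity)
        linarith
      have e6 : ∑ u ∈ O, pk S r m v u * ((nb S u ∩ O).card : ℝ) +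
          ∑ x ∈ O, pk S r m v x * ((nb S x \ O).card : ℝ) ≤
            (∑ x ∈ O, pk S r m v x) * r + 6 := by
        rw [← Finset.sum_add_distrib]
        have e7 : ∀ u ∈ O, pk S r m v u * ((nb S u ∩ O).card : ℝ) +
            pk S r m v u * ((nb S u \ O).card : ℝ) ≤ pk S r m v u * (r + 2) := by
          intro u _
          rw [← mul_add]
          apply mul_le_mul_of_nonneg_left _ (pk_nonneg S r m v u)
          have e8 := Finset.card_inter_add_card_sdiff (nb S u) O
          have e9 := hi u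
          exact_mod_cast (by omega : (nb S u ∩ O).card + (nb S u \ O).card ≤ r + 2)
        refine (Finset.sum_le_sum e7).trans ?_
        rw [← Finset.sum_mul, mul_add]
        have := hsub m v O hm
        linarith
      have e10 : (∑ x ∈ O, pk S r m v x - ∑ x ∈ O, pk S r (m + 1) v x) * r =
        (∑ x ∈ O, pk S r m v x) * r - (∑ x ∈ O, pk S r (m + 1) v x) * r := by ring
      rw [e10, e1, e2]
      linarith
    rw [k_sum, div_le_iff₀ hL0]
    have h4 : ∀ l ∈ Ico L (2 * L), ∑ x ∈ O, pk S r (2 * l) v x * ((nb S x \ O).card : ℝ) +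
        ∑ x ∈ O, pk S r (2 * l - 1) v x * ((nb S x \ O).card : ℝ) ≤
        ((fun n => ∑ x ∈ O, pk S r (2 * n - 1) v x) l -
          (fun n => ∑ x ∈ O, pk S r (2 * n - 1) v x) (l + 1)) * r + (12 + 6 * β * r) := by
      intro l hl
      rw [Finset.mem_Ico] at hl
      have e1 := hstep (2 * l) (by omega)
      have e2 := hstep (2 * l - 1) (by omega)
      have e3 : 2 * l - 1 + 1 = 2 * l := by omega
      have e4 : 2 * (l + 1) - 1 = 2 * l + 1 := by omega
      rw [e3] at e2
      simp only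
      rw [e4]
      linarith
    refine (Finset.sum_le_sum h4).trans ?_
    rw [Finset.sum_add_distrib, ← Finset.sum_mul, tele, Finset.sum_const, nsmul_eq_mul, hcI]
    have e5 := hsub (2 * L - 1) v O (by omega)
    have e6 : 0 ≤ ∑ x ∈ O, pk S r (2 * (2 * L) - 1) v x :=
      Finset.sum_nonneg fun x _ => pk_nonneg S r _ v x
    have e7 : (∑ x ∈ O, pk S r (2 * L - 1) v x - ∑ x ∈ O, pk S r (2 * (2 * L) - 1) v x) * r ≤
        3 * r := mul_le_mul_of_nonneg_right (by linarith) hr'.le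
    have e8 : (12 * β + 20 / (L : ℝ)) * r * L = 12 * β * r * L + 20 * r := by field_simp
    rw [e8]
    have e9 : 0 ≤ β * r * L := by positivity
    nlinarith
  · intro v Z
    rw [k_sum, div_le_iff₀ hL0]
    have hk := k_sum S r L v Z (fun _ => 1)
    simp only [mul_one] at hk
    have h4 : ∀ m, ∑ x ∈ O, pk S r m v x * ((nb S x ∩ Z).card : ℝ) ≤
        (∑ z ∈ Z, pk S r (m + 1) v z) * r := by
      intro m
      rw [step_set S r m Z v hr]
      exact Finset.sum_le_sum_of_subset_of_nonneg (Finset.subset_univ O)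
        fun x _ _ => mul_nonneg (pk_nonneg S r m v x) (Nat.cast_nonneg _)
    have h5 : ∀ l ∈ Ico L (2 * L), ∑ x ∈ O, pk S r (2 * l) v x * ((nb S x ∩ Z).card : ℝ) +
        ∑ x ∈ O, pk S r (2 * l - 1) v x * ((nb S x ∩ Z).card : ℝ) ≤
        ((∑ z ∈ Z, pk S r (2 * l) v z + ∑ z ∈ Z, pk S r (2 * l - 1) v z) -
        ((fun n => ∑ x ∈ Z, pk S r (2 * n - 1) v x) l -
          (fun n => ∑ x ∈ Z, pk S r (2 * n - 1) v x) (l + 1))) * r := by
      intro l hl
      rw [Finset.mem_Ico] at hl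
      have e1 := h4 (2 * l)
      have e2 := h4 (2 * l - 1)
      have e3 : 2 * l - 1 + 1 = 2 * l := by omega
      have e4 : 2 * (l + 1) - 1 = 2 * l + 1 := by omega
      rw [e3] at e2
      simp only
      rw [e4]
      linarith
    refine (Finset.sum_le_sum h5).trans ?_
    rw [← Finset.sum_mul, Finset.sum_sub_distrib, tele, hk]
    have e5 := hsub (2 * (2 * L) - 1) v Z (by omega)
    have e6 : 0 ≤ ∑ x ∈ Z, pk S r (2 * L - 1) v x :=
      Finset.sum_nonneg fun x _ => pk_nonneg S r _ v x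
    have e8 : ∀ y : ℝ, (y / L + 3 / (L : ℝ)) * r * L = (y + 3) * r := by
      intro y
      field_simp
    rw [e8]
    apply mul_le_mul_of_nonneg_right _ hr'.le
    linarith

theorem stmt_FLW : Stmt_FLW.{u} := by
  intro e CO he hCO
  have hCO0 : 0 < CO := by linarith
  obtain ⟨b0, hb0⟩ : ∃ b0 : ℝ, b0 = e / (30000 * CO) := ⟨_, rfl⟩
  have hb0p : 0 < b0 := by rw [hb0]; positivity
  have hb0e : CO * b0 = e / 30000 := by rw [hb0]; field_simp
  have hb01 : b0 ≤ e / 30000 := by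
    rw [← hb0e]
    nlinarith
  refine ⟨b0, ⌈2 / b0⌉₊ + 1, hb0p, ?_⟩
  intro V _ H S O U D r L β ρ hL hLr hβ hβ0 hρ hi hO hlow1 hlow2 hrig v
  have hL1 : 1 ≤ L := by omega
  obtain ⟨f1, f2, f3⟩ := stmt_FLOW S O r L β hL1 hLr hβ hi hO
  have hr : 0 < r := by omega
  have hr' : (0 : ℝ) < r := by exact_mod_cast hr
  have hL0 : (0 : ℝ) < L := by exact_mod_cast hL1
  have hLe : 1 / (L : ℝ) ≤ b0 / 2 := by
    have h1 : 2 / b0 ≤ L := by
      refine (Nat.le_ceil _).trans ?_
      exact_mod_cast (by omega : ⌈2 / b0⌉₊ ≤ L)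
    rw [div_le_iff₀ hb0p] at h1
    rw [div_le_div_iff₀ hL0 (by norm_num)]
    linarith
  have hD0 : (0 : ℝ) ≤ D := Nat.cast_nonneg D
  obtain ⟨κ, hκ⟩ : ∃ κ : V → ℝ, κ = fun x => k0 S r L v x + k1 S r L v x := ⟨_, rfl⟩
  have hκ0 : ∀ x, 0 ≤ κ x := by
    intro x
    rw [hκ]
    exact add_nonneg
      (div_nonneg (Finset.sum_nonneg fun _ _ => pk_nonneg _ _ _ _ _) (Nat.cast_nonneg L))
      (div_nonneg (Finset.sum_nonneg fun _ _ => pk_nonneg _ _ _ _ _) (Nat.cast_nonneg L))
  have g1 : ∑ x, κ x ≤ 6 := by rw [hκ]; exact f1 v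
  have g2 : ∑ x ∈ O, κ x * ((nb S x \ O).card : ℝ) ≤ (12 * β + 20 / L) * r := by
    rw [hκ]; exact f2 v
  have g3 : ∑ x ∈ O, κ x * ((nb S x ∩ (O \ U)).card : ℝ) ≤
      (∑ z ∈ O \ U, κ z + 3 / L) * r := by rw [hκ]; exact f3 v (O \ U)
  have hgoal : ∑ x ∈ O, κ x * ((nb H x \ U).card : ℝ) ≤ e * D := by
    have gO : ∑ x ∈ O, κ x ≤ 6 :=
      (Finset.sum_le_sum_of_subset_of_nonneg (Finset.subset_univ O) fun x _ _ => hκ0 x).trans g1
    -- general use of a lower test
    have hlow : ∀ (Y : Finset V) (B : ℝ), Low H S O Y D r ρ →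
        ∑ x ∈ O, κ x * ((nb S x ∩ Y).card : ℝ) ≤ B →
        (∑ x ∈ O, κ x * ((nb H x ∩ Y).card : ℝ)) * r ≤ 8 * D * B + 6 * b0 * D * r := by
      intro Y B hY hB
      have e1 : (∑ x ∈ O, κ x * ((nb H x ∩ Y).card : ℝ)) * r =
          ∑ x ∈ O, κ x * (r * ((nb H x ∩ Y).card : ℝ)) := by
        rw [Finset.sum_mul]
        exact Finset.sum_congr rfl fun x _ => by ring
      have e2 : ∑ x ∈ O, κ x * (r * ((nb H x ∩ Y).card : ℝ)) ≤
          ∑ x ∈ O, κ x * (8 * D * ((nb S x ∩ Y).card : ℝ) + b0 * D * r) := by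
        apply Finset.sum_le_sum
        intro x hx
        apply mul_le_mul_of_nonneg_left _ (hκ0 x)
        have h1 := hY x hx
        have h2 : ρ * D * r ≤ b0 * D * r :=
          mul_le_mul_of_nonneg_right (mul_le_mul_of_nonneg_right hρ hD0) hr'.le
        linarith
      have e3 : ∑ x ∈ O, κ x * (8 * D * ((nb S x ∩ Y).card : ℝ) + b0 * D * r) =
          8 * D * ∑ x ∈ O, κ x * ((nb S x ∩ Y).card : ℝ) + (∑ x ∈ O, κ x) * (b0 * D * r) := by
        rw [Finset.mul_sum, Finset.sum_mul, ← Finset.sum_add_distrib]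
        exact Finset.sum_congr rfl fun x _ => by ring
      have e4 : 8 * (D : ℝ) * ∑ x ∈ O, κ x * ((nb S x ∩ Y).card : ℝ) ≤ 8 * D * B :=
        mul_le_mul_of_nonneg_left hB (by positivity)
      have e5 : (∑ x ∈ O, κ x) * (b0 * D * r) ≤ 6 * (b0 * D * r) :=
        mul_le_mul_of_nonneg_right gO (by positivity)
      rw [e1]
      linarith
    have hsd : ∀ (G : SimpleGraph V) x, nb G x ∩ (univ \ O) = nb G x \ O := by
      intro G x
      ext w
      simp
    have h1 := hlow (univ \ O) ((12 * β + 20 / L) * r) hlow1 (by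
      simp only [hsd]
      exact g2)
    simp only [hsd] at h1
    have h2 := hlow (O \ U) ((∑ z ∈ O \ U, κ z + 3 / L) * r) hlow2 g3
    -- A
    obtain ⟨α, hα⟩ : ∃ α : ℝ, α = 8 * (12 * β + 20 / L) + 6 * b0 := ⟨_, rfl⟩
    have h3 : ∑ x ∈ O, κ x * ((nb H x \ O).card : ℝ) ≤ α * D := by
      have : (∑ x ∈ O, κ x * ((nb H x \ O).card : ℝ)) * r ≤ α * D * r := by
        rw [hα]
        linarith
      exact le_of_mul_le_mul_right this hr'
    -- B
    have h4 : (D : ℝ) * ∑ z ∈ O \ U, κ z ≤ CO * (α * D) := by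
      have e1 : (D : ℝ) * ∑ z ∈ O \ U, κ z ≤
          CO * ∑ z ∈ O \ U, κ z * ((nb H z \ O).card : ℝ) := by
        rw [Finset.mul_sum, Finset.mul_sum]
        apply Finset.sum_le_sum
        intro z hz
        rw [Finset.mem_sdiff] at hz
        have h5 := hrig z hz.1 hz.2
        have := mul_le_mul_of_nonneg_right h5 (hκ0 z)
        linarith
      have e2 : ∑ z ∈ O \ U, κ z * ((nb H z \ O).card : ℝ) ≤
          ∑ x ∈ O, κ x * ((nb H x \ O).card : ℝ) :=
        Finset.sum_le_sum_of_subset_of_nonneg Finset.sdiff_subset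
          fun x _ _ => mul_nonneg (hκ0 x) (Nat.cast_nonneg _)
      exact e1.trans (mul_le_mul_of_nonneg_left (e2.trans h3) hCO0.le)
    -- C
    have h5 : ∑ x ∈ O, κ x * ((nb H x ∩ (O \ U)).card : ℝ) ≤
        (8 * CO * α + 24 / L + 6 * b0) * D := by
      have e1 : 8 * (D : ℝ) * ((∑ z ∈ O \ U, κ z + 3 / L) * r) ≤
          8 * (CO * (α * D) + 3 / L * D) * r := by
        have : 8 * (D : ℝ) * ((∑ z ∈ O \ U, κ z + 3 / L) * r) =
          8 * (D * (∑ z ∈ O \ U, κ z) + 3 / L * D) * r := by ring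
        rw [this]
        apply mul_le_mul_of_nonneg_right _ hr'.le
        linarith
      have e2 : (∑ x ∈ O, κ x * ((nb H x ∩ (O \ U)).card : ℝ)) * r ≤
          (8 * CO * α + 24 / L + 6 * b0) * D * r := by
        refine (h2.trans (add_le_add e1 le_rfl)).trans (le_of_eq ?_)
        ring
      exact le_of_mul_le_mul_right e2 hr'
    -- together
    have h6 : ∑ x ∈ O, κ x * ((nb H x \ U).card : ℝ) ≤
        ∑ x ∈ O, κ x * ((nb H x \ O).card : ℝ) +
          ∑ x ∈ O, κ x * ((nb H x ∩ (O \ U)).card : ℝ) := by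
      rw [← Finset.sum_add_distrib]
      apply Finset.sum_le_sum
      intro x _
      rw [← mul_add]
      apply mul_le_mul_of_nonneg_left _ (hκ0 x)
      have : nb H x \ U ⊆ (nb H x \ O) ∪ (nb H x ∩ (O \ U)) := by
        intro w hw
        simp only [Finset.mem_sdiff, Finset.mem_union, Finset.mem_inter] at hw ⊢
        tauto
      exact_mod_cast (Finset.card_le_card this).trans (Finset.card_union_le _ _)
    have h7 : (α + 8 * CO * α + 24 / L + 6 * b0) * (D : ℝ) ≤ e * D := by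
      apply mul_le_mul_of_nonneg_right _ hD0
      have e1 : (20 : ℝ) / L = 20 * (1 / L) := by ring
      have e2 : (24 : ℝ) / L = 24 * (1 / L) := by ring
      have e3 : α ≤ 182 * b0 := by
        rw [hα, e1]
        linarith
      have e4 : CO * α ≤ 182 * (e / 30000) := by
        rw [← hb0e]
        calc CO * α ≤ CO * (182 * b0) := mul_le_mul_of_nonneg_left e3 hCO0.le
          _ = 182 * (CO * b0) := by ring
      rw [e2]
      linarith
    linarith
  have e0 : ∑ x ∈ O, (k0 S r L v x + k1 S r L v x) * ((nb H x \ U).card : ℝ) =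
      ∑ x ∈ O, κ x * ((nb H x \ U).card : ℝ) := by rw [hκ]
  rw [e0]
  exact hgoal

end Pool.Agent.Work.MP_db9399_og.helper68
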